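import Pool.Agent.H72.S8.CaseB
import Pool.Agent.H86.S8.Stm
import Pool.Agent.H76.SW.R3
import Pool.Agent.H62.SW.R5
import Pool.Agent.H89.SW.R6
import Pool.Agent.H57.SW.R8

set_option autoImplicit false

/-!
# Words of length at most eight: both sides never zero
-/

namespace Pool.Agent.H72.S8

open Pool.Agent.H86.S8 (SBoth)

theorem sBoth : SBoth := by
  intro α _ _ F G a b e e' M h hF hG ha hb hg hf
  refine caseB H76.SW.sgen H62.SW.sDrop H89.SW.slin H57.SW.two h.toPk ?_ ha hb hg hf hF hG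
  intro g f w hw
  apply h.cut
  intro w1 w2 e1 h1
  rcases h.e01' (w2 ++ f) with h2 | h2
  · exact h2
  · exact absurd ⟨h1, h2⟩ (hw w1 w2 e1)

end Pool.Agent.H72.S8
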