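import Pool.Agent.H49.SW.Pos

set_option autoImplicit false

/-!
# Words of length at most eight, case B
-/

namespace Pool.Agent.H72.S8

open Finset MvPolynomial
open Pool.Agent.H35.FC (gf)
open Pool.Agent.H49.SW
open Pool.Agent.H72.OF (os coeff_gf exists_of_coeff vec vec_apply)

section Family

variable {α ι : Type} [Fintype α] [DecidableEq α]

/-- A family of polynomials with a recursion. -/
structure Fam (A : ι → MvPolynomial α ℤ) (E : ι → ℤ) (c : ι → α → ι) (G : MvPolynomial α ℤ) :
    Prop where
  two : 2 ≤ Fintype.card α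
  e01 : ∀ i, E i = 0 ∨ E i = 1
  recA : ∀ i, ∑ x : α, X x * A (c i x) = A i - 1 + C (E i) * G
  const : ∀ i, constantCoeff (A i) = 1 - E i
  posA : ∀ t : α → ℕ, (∀ x, 1 ≤ t x) → ∀ i, 0 ≤ evt t (A i)
  ne : ∀ i, A i ≠ 0

variable {A : ι → MvPolynomial α ℤ} {E : ι → ℤ} {c : ι → α → ι} {G : MvPolynomial α ℤ}

theorem Fam.const_one (h : Fam A E c G) {i : ι} (hi : (A i).totalDegree ≤ 0) :
    E i = 0 ∧ A i = 1 := by
  rcases h.e01 i with h0 | h0
  · refine ⟨h0, ?_⟩
    have h1 : A i = C (coeff 0 (A i)) := totalDegree_eq_zero_iff_eq_C.1 (Nat.le_zero.1 hi)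
    rw [h1, show coeff 0 (A i) = constantCoeff (A i) from rfl, h.const, h0, sub_zero, C_1]
  · exact absurd (eq_zero_of_const hi (by rw [h.const, h0, sub_self])) (h.ne i)

theorem Fam.drop (h5 : SDrop) (h : Fam A E c G) {i : ι} {m : ℕ}
    (hm : (A i - 1 + C (E i) * G).totalDegree ≤ m + 1) (x : α) :
    (A (c i x)).totalDegree ≤ m :=
  h5 α (fun x => A (c i x)) (fun x t ht => h.posA t ht _) m (by rw [h.recA]; exact hm) x

theorem Fam.drop0 (h5 : SDrop) (h : Fam A E c G) {i : ι} {m : ℕ} (h0 : E i = 0)
    (hm : (A i).totalDegree ≤ m + 1) (x : α) : (A (c i x)).totalDegree ≤ m := by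
  refine h.drop h5 ?_ x
  rw [h0, C_0, zero_mul, add_zero]
  exact deg_sub_one hm

theorem Fam.drop1 (h5 : SDrop) (h : Fam A E c G) {i : ι} {m : ℕ} (h0 : E i = 1)
    (hm : (A i).totalDegree ≤ m + 1) (hG : G.totalDegree ≤ m + 1) (x : α) :
    (A (c i x)).totalDegree ≤ m := by
  refine h.drop h5 ?_ x
  rw [h0, C_1, one_mul]
  exact (totalDegree_add _ _).trans (max_le (deg_sub_one hm) hG)

theorem Fam.deg_pos (h5 : SDrop) (h : Fam A E c G) (i : ι) : ¬ (A i).totalDegree ≤ 0 := by
  intro hi
  obtain ⟨h0, h1⟩ := h.const_one hi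
  have h2 : ∀ x, A (c i x) = 1 := fun x =>
    (h.const_one (h.drop0 h5 h0 (hi.trans (Nat.zero_le _)) x)).2
  have h3 := h.recA i
  simp only [h2, h0, h1, C_0, zero_mul, add_zero, sub_self, mul_one] at h3
  have h4 := congrArg (evt (fun _ : α => 1)) h3
  unfold evt at h4
  rw [map_sum, map_zero] at h4
  simp only [eval_X, Nat.cast_one, Finset.sum_const, Finset.card_univ, nsmul_eq_mul, mul_one] at h4
  have h6 := h.two
  have h7 : Fintype.card α = 0 := by exact_mod_cast h4
  omega

theorem Fam.deg_one (h5 : SDrop) (h : Fam A E c G) {i : ι} (hi : (A i).totalDegree ≤ 1) :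
    E i = 1 := by
  rcases h.e01 i with h0 | h0
  · have hα : Nonempty α := Fintype.card_pos_iff.1 (by have := h.two; omega)
    obtain ⟨x⟩ := hα
    exact absurd (h.drop0 h5 h0 hi x) (h.deg_pos h5 _)
  · exact h0

end Family

variable {α : Type} [Fintype α] [DecidableEq α]

omit [Fintype α] [DecidableEq α] in
theorem evt_nonneg [Fintype α] {p : MvPolynomial α ℤ} (h : NN p) (t : α → ℕ) : 0 ≤ evt t p := by
  unfold evt
  rw [eval_eq]
  exact Finset.sum_nonneg fun m _ => mul_nonneg (h m)
    (Finset.prod_nonneg fun x _ => by positivity)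

omit [Fintype α] [DecidableEq α] in
theorem NN.hom [Fintype α] {p : MvPolynomial α ℤ} (h : NN p) (d : ℕ) :
    NN (homogeneousComponent d p) := by
  classical
  intro m
  rw [coeff_homogeneousComponent]
  split_ifs
  · exact h m
  · exact le_rfl

omit [Fintype α] [DecidableEq α] in
theorem single_of_degree {m : α →₀ ℕ} (h : m.degree = 1) : ∃ x, m = Finsupp.single x 1 := by
  have h0 : m ≠ 0 := by
    rintro rfl
    simp at h
  obtain ⟨x, hx⟩ := Finsupp.ne_iff.1 h0
  have hle : Finsupp.single x 1 ≤ m := Finsupp.single_le_iff.2 (Nat.one_le_iff_ne_zero.2 hx)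
  obtain ⟨r, hr⟩ := exists_add_of_le hle
  have h1 : m.degree = 1 + r.degree := by
    rw [hr, map_add, Finsupp.degree_single]
  have h2 : r = 0 := (Finsupp.degree_eq_zero_iff r).1 (by omega)
  exact ⟨x, by rw [hr, h2, add_zero]⟩

omit [Fintype α] in
theorem coeff_mul_single {p q : MvPolynomial α ℤ} (hp : constantCoeff p = 0)
    (hq : constantCoeff q = 0) (x : α) : coeff (Finsupp.single x 1) (p * q) = 0 := by
  rw [coeff_mul]
  apply Finset.sum_eq_zero
  rintro ⟨u, v⟩ huv
  rw [HasAntidiagonal.mem_antidiagonal] at huv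
  have h1 : u.degree + v.degree = 1 := by
    rw [← map_add, huv, Finsupp.degree_single]
  have h2 : u.degree = 0 ∨ v.degree = 0 := by omega
  rcases h2 with h2 | h2
  · rw [(Finsupp.degree_eq_zero_iff u).1 h2]
    show coeff 0 p * _ = 0
    rw [show coeff 0 p = constantCoeff p from rfl, hp, zero_mul]
  · rw [(Finsupp.degree_eq_zero_iff v).1 h2]
    show _ * coeff 0 q = 0
    rw [show coeff 0 q = constantCoeff q from rfl, hq, mul_zero]

theorem evt_mul' (t : α → ℕ) (p q : MvPolynomial α ℤ) : evt t (p * q) = evt t p * evt t q := by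
  unfold evt
  rw [map_mul]

theorem evt_sub' (t : α → ℕ) (p q : MvPolynomial α ℤ) : evt t (p - q) = evt t p - evt t q := by
  unfold evt
  rw [map_sub]

/-- The algebra of case B. -/
theorem exists_letter {a b : MvPolynomial α ℤ} {t : α → ℕ} (ht : ∀ x, 1 ≤ t x)
    (hα : 2 ≤ Fintype.card α) (hga : Gen t a)
    (ha2 : a.totalDegree ≤ 2) (hb1 : b.totalDegree ≤ 1) (ha0 : constantCoeff a = 0)
    (hb0 : constantCoeff b = 0) (ha : a ≠ 0) (hbt : 0 < evt t b)
    (hN : NN (a + b - os α * (a * b))) : ∃ x, 0 < coeff (Finsupp.single x 1) a := by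
  by_contra hcon
  push Not at hcon
  obtain ⟨S, hSd⟩ : ∃ S : MvPolynomial α ℤ, S = ∑ x : α, X x := ⟨_, rfl⟩
  obtain ⟨a1, ha1⟩ : ∃ p, p = homogeneousComponent 1 a := ⟨_, rfl⟩
  obtain ⟨a2, ha2'⟩ : ∃ p, p = homogeneousComponent 2 a := ⟨_, rfl⟩
  have hA : a = a1 + a2 := by
    have h3 := sum_homogeneousComponent a
    have h4 : ∑ i ∈ Finset.range 3, homogeneousComponent i a = a := by
      rw [← h3]
      rw [h3]
      symm
      rw [← h3]
      have : Finset.range (a.totalDegree + 1) ⊆ Finset.range 3 :=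
        Finset.range_subset_range.2 (by omega)
      rw [h3]
      rw [← Finset.sum_subset this]
      · exact h3.symm
      · intro i _ hi
        rw [Finset.mem_range, not_lt] at hi
        exact homogeneousComponent_eq_zero _ _ (by omega)
    rw [Finset.sum_range_succ, Finset.sum_range_succ, Finset.sum_range_one,
      homogeneousComponent_zero, show coeff 0 a = constantCoeff a from rfl, ha0, map_zero,
      zero_add] at h4
    rw [ha1, ha2']
    exact h4.symm
  have hB : b.IsHomogeneous 1 := by
    have h3 := sum_homogeneousComponent b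
    rcases Nat.le_one_iff_eq_zero_or_eq_one.1 hb1 with h4 | h4
    · rw [eq_zero_of_const h4.le hb0]
      exact isHomogeneous_zero _ _ _
    · rw [h4, Finset.sum_range_succ, Finset.sum_range_succ, Finset.sum_range_zero, zero_add,
        homogeneousComponent_zero, show coeff 0 b = constantCoeff b from rfl, hb0, map_zero,
        zero_add] at h3
      rw [← h3]
      exact homogeneousComponent_isHomogeneous _ _
  have hH1 : a1.IsHomogeneous 1 := by rw [ha1]; exact homogeneousComponent_isHomogeneous _ _
  have hH2 : a2.IsHomogeneous 2 := by rw [ha2']; exact homogeneousComponent_isHomogeneous _ _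
  have hS : S.IsHomogeneous 1 := by
    rw [hSd]
    exact IsHomogeneous.sum _ _ _ fun x _ => isHomogeneous_X _ x
  have hp : a + b - os α * (a * b) =
      (a1 + b) + (a2 - a1 * b) + (S * a1 * b - a2 * b) + S * a2 * b := by
    rw [show os α = 1 - S by rw [hSd]; rfl, hA]
    ring
  have hc1 : (a1 + b).IsHomogeneous 1 := hH1.add hB
  have hc2 : (a2 - a1 * b).IsHomogeneous 2 := hH2.sub (hH1.mul hB)
  have hc3 : (S * a1 * b - a2 * b).IsHomogeneous 3 := ((hS.mul hH1).mul hB).sub (hH2.mul hB)
  have hc4 : (S * a2 * b).IsHomogeneous 4 := (hS.mul hH2).mul hB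
  have h3 : homogeneousComponent 3 (a + b - os α * (a * b)) = S * a1 * b - a2 * b := by
    rw [hp, map_add, map_add, map_add, homogeneousComponent_of_mem hc1,
      homogeneousComponent_of_mem hc2, homogeneousComponent_of_mem hc3,
      homogeneousComponent_of_mem hc4]
    norm_num
  have h4 : homogeneousComponent 4 (a + b - os α * (a * b)) = S * a2 * b := by
    rw [hp, map_add, map_add, map_add, homogeneousComponent_of_mem hc1,
      homogeneousComponent_of_mem hc2, homogeneousComponent_of_mem hc3,
      homogeneousComponent_of_mem hc4]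
    norm_num
  have e3 := evt_nonneg (NN.hom hN 3) t
  have e4 := evt_nonneg (NN.hom hN 4) t
  rw [h3, evt_sub', evt_mul', evt_mul', evt_mul'] at e3
  rw [h4, evt_mul', evt_mul'] at e4
  have hSt : 0 < evt t S := by
    rw [hSd]
    unfold evt
    rw [map_sum]
    simp only [eval_X]
    refine Finset.sum_pos (fun x _ => ?_) ?_
    · have := ht x
      exact_mod_cast this
    · rw [← Finset.card_pos, Finset.card_univ]
      omega
  have e1 : evt t a1 ≤ 0 := by
    unfold evt
    rw [eval_eq]
    refine Finset.sum_nonpos fun m hm => mul_nonpos_of_nonpos_of_nonneg ?_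
      (Finset.prod_nonneg fun x _ => by positivity)
    have hm1 : m.degree = 1 := by
      by_contra hne
      rw [mem_support_iff, ha1, coeff_homogeneousComponent, if_neg hne] at hm
      exact hm rfl
    obtain ⟨x, rfl⟩ := single_of_degree hm1
    rw [ha1, coeff_homogeneousComponent, if_pos hm1]
    exact hcon x
  have e2 : 0 ≤ evt t a2 := by
    by_contra hneg
    push Not at hneg
    have := mul_neg_of_neg_of_pos (mul_neg_of_pos_of_neg hSt hneg) hbt
    linarith
  have e5 : 0 ≤ evt t S * evt t a1 - evt t a2 := by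
    by_contra hneg
    push Not at hneg
    have h6 := mul_neg_of_neg_of_pos hneg hbt
    rw [sub_mul] at h6
    linarith
  have e6 : evt t a2 = 0 := by
    have h6 : evt t S * evt t a1 ≤ 0 := mul_nonpos_of_nonneg_of_nonpos hSt.le e1
    linarith
  have e7 : evt t a1 = 0 := by
    by_contra hne
    have h6 : evt t a1 < 0 := lt_of_le_of_ne e1 hne
    have h7 := mul_neg_of_pos_of_neg hSt h6
    linarith
  have h1 : a1 = 0 := by
    by_contra hne
    exact hga 1 (by rw [← ha1]; exact hne) (by rw [← ha1]; exact e7)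
  have h2 : a2 = 0 := by
    by_contra hne
    exact hga 2 (by rw [← ha2']; exact hne) (by rw [← ha2']; exact e6)
  exact ha (by rw [hA, h1, h2, add_zero])

omit [Fintype α] in
theorem eq_singleton {w : List α} {x : α} (h : vec w = Finsupp.single x 1) : w = [x] := by
  have h1 : ∀ y, w.count y = if x = y then 1 else 0 := by
    intro y
    rw [← vec_apply, h, Finsupp.single_apply]
  have h2 : w.Perm [x] := by
    rw [List.perm_iff_count]
    intro y
    rw [h1 y, List.count_singleton]
    by_cases hxy : x = y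
    · subst hxy; simp
    · simp [hxy]
  exact List.perm_singleton.1 h2

variable {F G : MvPolynomial α ℤ}
  {a b : List α → MvPolynomial α ℤ} {e e' : List α → ℤ} {M : List α → List α → Finset (List α)}

theorem famA (h : Pk F G a b e e' M) (ha : ∀ g, a g ≠ 0) :
    Fam a e (fun g x => g ++ [x]) G :=
  ⟨h.two, h.e01, h.recA, const_a h, h.posA, ha⟩

theorem famB (h : Pk F G a b e e' M) (hb : ∀ f, b f ≠ 0) :
    Fam b e' (fun f x => x :: f) F :=
  ⟨h.two, h.e01', h.recB, const_b h, h.posB, hb⟩

theorem caseB (h3 : SGen) (h5 : SDrop) (h6 : SLin) (h8 : STwo) (h : Pk F G a b e e' M)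
    (hcut : ∀ g f w, (∀ u v, w = u ++ v → ¬ (e (g ++ u) = 1 ∧ e' (v ++ f) = 1)) → w ∈ M g f)
    (ha : ∀ g, a g ≠ 0) (hb : ∀ f, b f ≠ 0)
    (hg : ∃ g, e g = 1 ∧ (a g).totalDegree ≤ 2) (hf : ∃ f, e' f = 1 ∧ (b f).totalDegree ≤ 1)
    (hF : F.totalDegree ≤ 3) (hG : G.totalDegree ≤ 4) : False := by
  have fA := famA h ha
  have fB := famB h hb
  obtain ⟨z⟩ : Nonempty α := Fintype.card_pos_iff.1 (by have := h.two; omega)
  have hne : ∀ {x : ℤ}, x = 0 ∨ x = 1 → x ≠ 1 → x = 0 := fun h1 h2 => h1.resolve_right h2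
  -- no `a h` has degree at most one
  obtain ⟨f0, hf0, hfd0⟩ := hf
  have noA : ∀ k, ¬ (a k).totalDegree ≤ 1 := by
    intro k hk
    have hek := fA.deg_one h5 hk
    obtain ⟨t, ht, hgen⟩ := h3 α {a k, b f0} (by simp)
    have ha0 : constantCoeff (a k) = 0 := by rw [const_a h, hek, sub_self]
    have hb0 : constantCoeff (b f0) = 0 := by rw [const_b h, hf0, sub_self]
    refine h8 α (a k) (b f0) t ht hk hfd0 ha0 hb0
      (evt_pos (hgen _ (by simp)) hk ha0 (ha k) (h.posA t ht k))
      (evt_pos (hgen _ (by simp)) hfd0 hb0 (hb f0) (h.posB t ht f0)) ?_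
    rw [← h.nn k f0]
    exact NN.gf _
  -- the letters
  have letter : ∀ k, e k = 1 → (a k).totalDegree ≤ 2 → ∃ x,
      e (k ++ [x]) = 0 ∧ ∀ f, e' f = 1 → (b f).totalDegree ≤ 1 → e' (x :: f) = 0 := by
    intro k hek hk
    have ha0 : constantCoeff (a k) = 0 := by rw [const_a h, hek, sub_self]
    have key : ∃ x, 0 < coeff (Finsupp.single x 1) (a k) := by
      obtain ⟨t, ht, hgen⟩ := h3 α {a k, b f0} (by simp)
      have hb0 : constantCoeff (b f0) = 0 := by rw [const_b h, hf0, sub_self]
      refine exists_letter ht h.two (hgen _ (by simp)) hk hfd0 ha0 hb0 (ha k)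
        (evt_pos (hgen _ (by simp)) hfd0 hb0 (hb f0) (h.posB t ht f0)) ?_
      rw [← h.nn k f0]
      exact NN.gf _
    obtain ⟨x, hx⟩ := key
    have mem : ∀ f, e' f = 1 → (b f).totalDegree ≤ 1 → [x] ∈ M k f := by
      intro f hef hfd
      have hb0 : constantCoeff (b f) = 0 := by rw [const_b h, hef, sub_self]
      have hbn : 0 ≤ coeff (Finsupp.single x 1) (b f) :=
        h6 α (b f) (fun t ht => h.posB t ht f) hb0.ge hfd _
      have hab : coeff (Finsupp.single x 1) (os α * (a k * b f)) = 0 := by
        rw [← mul_assoc]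
        exact coeff_mul_single (by rw [map_mul, ha0, mul_zero]) hb0 x
      have h1 : coeff (Finsupp.single x 1) (gf (M k f)) ≠ 0 := by
        rw [h.nn k f, coeff_sub, coeff_add, hab]
        omega
      obtain ⟨w, hw, hwv⟩ := exists_of_coeff h1
      rw [eq_singleton hwv] at hw
      exact hw
    refine ⟨x, h.cutR _ _ _ (mem f0 hf0 hfd0) hf0, fun f hef hfd => ?_⟩
    exact h.cutL _ _ _ (mem f hef hfd) hek
  -- the words
  have words : ∀ n : ℕ, ∀ k, e k = 1 → (a k).totalDegree ≤ 2 → ∃ w : List α,
      w.length = 2 * n + 1 ∧ (∀ u v, w = u ++ v → Odd u.length → e (k ++ u) = 0) ∧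
      (∀ f, e' f = 1 → (b f).totalDegree ≤ 1 →
        (b (w ++ f)).totalDegree ≤ 2 ∧ ∀ u v, w = u ++ v → Odd v.length → e' (v ++ f) = 0) := by
    intro n
    induction n with
    | zero =>
      intro k hek hk
      obtain ⟨x, hx1, hx2⟩ := letter k hek hk
      refine ⟨[x], rfl, ?_, ?_⟩
      · intro u v e1 hu
        have hl := congrArg List.length e1
        simp only [List.length_append, List.length_singleton] at hl
        have hu1 : u.length = 1 := by
          rcases hu with ⟨m, hm⟩
          omega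
        have hv : v = [] := List.length_eq_zero_iff.1 (by omega)
        subst hv
        rw [List.append_nil] at e1
        rw [← e1]
        exact hx1
      · intro f hef hfd
        refine ⟨fB.drop1 h5 hef (hfd.trans (by omega)) hF x, ?_⟩
        intro u v e1 hv
        have hl := congrArg List.length e1
        simp only [List.length_append, List.length_singleton] at hl
        have hu : u = [] := by
          apply List.length_eq_zero_iff.1
          rcases hv with ⟨m, hm⟩
          omega
        subst hu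
        rw [List.nil_append] at e1
        rw [← e1]
        exact hx2 f hef hfd
    | succ n ih =>
      intro k hek hk
      obtain ⟨x, hx1, hx2⟩ := letter k hek hk
      have hd1 : (a (k ++ [x])).totalDegree ≤ 3 := fA.drop1 h5 hek (hk.trans (by omega)) hG x
      have hd2 : (a (k ++ [x] ++ [z])).totalDegree ≤ 2 := fA.drop0 h5 hx1 hd1 z
      have he2 : e (k ++ [x] ++ [z]) = 1 := by
        rcases h.e01 (k ++ [x] ++ [z]) with h0 | h0
        · exact absurd (fA.drop0 h5 h0 hd2 z) (noA _)
        · exact h0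
      obtain ⟨w, hw1, hw2, hw3⟩ := ih _ he2 hd2
      refine ⟨x :: z :: w, by simp only [List.length_cons]; omega, ?_, ?_⟩
      · intro u v e1 hu
        rcases u with _ | ⟨x1, _ | ⟨z1, u⟩⟩
        · simp at hu
        · rw [List.cons_append, List.cons.injEq] at e1
          rw [← e1.1]
          exact hx1
        · rw [List.cons_append, List.cons_append, List.cons.injEq, List.cons.injEq] at e1
          obtain ⟨rfl, rfl, e1⟩ := e1
          have h1 := hw2 u v e1 (by
            simp only [List.length_cons] at hu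
            rcases hu with ⟨m, hm⟩
            exact ⟨m - 1, by omega⟩)
          simpa using h1
      · intro f hef hfd
        obtain ⟨h1, h2⟩ := hw3 f hef hfd
        have h3' : e' (w ++ f) = 0 := h2 [] w rfl ⟨n, hw1⟩
        have h4 : (b (z :: (w ++ f))).totalDegree ≤ 1 := fB.drop0 h5 h3' h1 z
        have h7 : e' (z :: (w ++ f)) = 1 := fB.deg_one h5 h4
        refine ⟨fB.drop1 h5 h7 (h4.trans (by omega)) hF x, ?_⟩
        intro u v e1 hv
        rcases u with _ | ⟨x1, _ | ⟨z1, u⟩⟩
        · rw [List.nil_append] at e1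
          rw [← e1]
          exact hx2 _ h7 h4
        · exfalso
          rw [List.cons_append, List.cons.injEq, List.nil_append] at e1
          rw [← e1.2, List.length_cons, hw1] at hv
          rcases hv with ⟨m, hm⟩
          omega
        · rw [List.cons_append, List.cons_append, List.cons.injEq, List.cons.injEq] at e1
          exact h2 u v e1.2.2 hv
  obtain ⟨g, hge, hgd⟩ := hg
  obtain ⟨w, hw1, hw2, hw3⟩ := words ((M g f0).sup List.length) g hge hgd
  have hmem : w ∈ M g f0 := by
    apply hcut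
    rintro u v e1 ⟨hu, hv⟩
    have hl := congrArg List.length e1
    rw [hw1, List.length_append] at hl
    rcases Nat.even_or_odd u.length with h1 | h1
    · have h2 := (hw3 f0 hf0 hfd0).2 u v e1 (by
        rcases h1 with ⟨m, hm⟩
        exact ⟨(M g f0).sup List.length - m, by omega⟩)
      omega
    · have h2 := hw2 u v e1 h1
      omega
  have h1 : w.length ≤ (M g f0).sup List.length := Finset.le_sup (f := List.length) hmem
  omega

end Pool.Agent.H72.S8
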