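import Pool.Agent.H49.SW.Asm
import Pool.Agent.H72.S8.CaseB
import Pool.Agent.H86.S8.Stm
import Pool.Agent.H35.FC.Gf
import Pool.Agent.H35.CX.Api

set_option autoImplicit false

/-!
# Words of length at most eight: the system of a code, with the link to factorizations
-/

namespace Pool.Agent.H72.S8

open Finset MvPolynomial
open Pool.Agent.H35
open Pool.Agent.H35.FC (IsCode IsPrefixCode Facts Tiles gf SGf STree of_tiles)
open Pool.Agent.H72.OF (os os_ne_zero coeff_gf_pos vec vec_apply coeff_os)
open Pool.Agent.H49.SW
open Pool.Agent.H86.OG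
open Pool.Agent.H86.S8 (Pk8 SPrime SLink)

theorem degree_vec {α : Type} [DecidableEq α] (w : List α) : (vec w).degree = w.length := by
  induction w with
  | nil => simp [vec]
  | cons x w ih =>
    have h1 : vec (x :: w) = Finsupp.single x 1 + vec w := by
      simp [vec]
    rw [h1, map_add, Finsupp.degree_single, ih, List.length_cons]
    omega

theorem length_le {α : Type} [DecidableEq α] {L : Finset (List α)} {w : List α} (hw : w ∈ L)
    {n : ℕ} (h : (gf L).totalDegree ≤ n) : w.length ≤ n := by
  have h1 : vec w ∈ (gf L).support := mem_support_iff.2 (coeff_gf_pos hw).ne'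
  have h2 := le_totalDegree h1
  have h3 : ((vec w).sum fun _ e => e) = w.length := by
    rw [← degree_vec w]
    rfl
  omega

theorem coeff_mul_one {α : Type} [DecidableEq α] (p q : MvPolynomial α ℤ) (x : α) :
    coeff (Finsupp.single x 1) (p * q) =
      constantCoeff p * coeff (Finsupp.single x 1) q +
        coeff (Finsupp.single x 1) p * constantCoeff q := by
  have h1 : p * q = (p - C (constantCoeff p)) * (q - C (constantCoeff q)) +
      C (constantCoeff p) * q + C (constantCoeff q) * p -
        C (constantCoeff p) * C (constantCoeff q) := by ring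
  have h2 := coeff_mul_single (p := p - C (constantCoeff p)) (q := q - C (constantCoeff q))
    (by rw [map_sub, constantCoeff_C, sub_self]) (by rw [map_sub, constantCoeff_C, sub_self]) x
  have h3 : (0 : α →₀ ℕ) ≠ Finsupp.single x 1 := by
    intro h
    have := DFunLike.congr_fun h x
    simp at this
  rw [h1, coeff_sub, coeff_add, coeff_add, h2, coeff_C_mul, coeff_C_mul, ← C_mul, coeff_C,
    if_neg h3]
  ring

theorem const_nonneg {x : ℤ} (h : x = 0 ∨ x = 1) : 0 ≤ x := by
  rcases h with h | h <;> rw [h] <;> norm_num

theorem one_of {p q c : ℤ} (h : p + q = 1 - c) (hc : 0 ≤ c) : p + q ≤ 1 := by omega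

/-- A degree bound. -/
theorem deg_cof {α : Type} [Fintype α] {G b : MvPolynomial α ℤ} {n m : ℕ}
    (hG : G.totalDegree ≤ n) (hb : b.totalDegree ≤ m) :
    (G * (1 - os α * b)).totalDegree ≤ n + (1 + m) := by
  have hos : (os α).totalDegree ≤ 1 := by
    unfold os
    refine (totalDegree_sub _ _).trans (max_le (by rw [totalDegree_one]; exact Nat.zero_le _) ?_)
    exact totalDegree_finsetSum_le fun x _ => by rw [totalDegree_X]
  refine (totalDegree_mul _ _).trans (Nat.add_le_add hG ?_)
  refine (totalDegree_sub _ _).trans (max_le (by rw [totalDegree_one]; exact Nat.zero_le _) ?_)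
  exact (totalDegree_mul _ _).trans (Nat.add_le_add hos hb)

open Classical in
/-- R7, from R6. -/
theorem sLink_of (hPr : SPrime) (hgf : SGf) : SLink := by
  intro α _ _ C S P N h2 hC hT
  obtain ⟨y⟩ : Nonempty α := by
    rw [← Fintype.card_pos_iff]
    omega
  haveI : Nonempty α := ⟨y⟩
  obtain ⟨L, hL⟩ : ∃ L : ℕ, ∀ w ∈ C ∪ S ∪ P ∪ N, w.length ≤ L :=
    ⟨(C ∪ S ∪ P ∪ N).sup List.length, fun w hw => Finset.le_sup (f := List.length) hw⟩
  have hB : Base (C : Set (List α)) (S : Set (List α)) (P : Set (List α)) (N : Set (List α)) L :=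
    ⟨hC, hT, fun w hw => hL w (by
      simp only [Finset.mem_union]
      exact Or.inl (Or.inl (Or.inl (by exact_mod_cast hw)))), fun w hw => hL w (by
      simp only [Finset.mem_union]
      exact Or.inl (Or.inl (Or.inr (by exact_mod_cast hw)))), fun w hw => hL w (by
      simp only [Finset.mem_union]
      exact Or.inl (Or.inr (by exact_mod_cast hw))), fun w hw => hL w (by
      simp only [Finset.mem_union]
      exact Or.inr (by exact_mod_cast hw))⟩
  by_cases hN : ∃ g f, Nset (C : Set (List α)) S P g f = ∅
  · obtain ⟨g, f, hgf⟩ := hN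
    left
    refine ⟨Aset C S g, Bset C P f, aset_finite hB g, bset_finite hB f, ?_⟩
    rw [← hgf]
    exact partP hB g f
  right
  have hne : ∀ g f, (Nset (C : Set (List α)) S P g f).Nonempty := by
    intro g f
    rw [Set.nonempty_iff_ne_empty]
    exact fun h => hN ⟨g, f, h⟩
  have hPne : (P : Set (List α)).Nonempty := by
    obtain ⟨t, ht⟩ := exists_fact hB [] [] (w := List.replicate (L + 1) y) (by simp)
    obtain ⟨k, -, p, hp, -⟩ := lc_of_bset ht.2.2.1
    exact ⟨p, hp⟩
  have hSne : (S : Set (List α)).Nonempty := by
    obtain ⟨t, ht⟩ := exists_fact hB [] [] (w := List.replicate (L + 1) y) (by simp)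
    obtain ⟨s, hs, -⟩ := rc_of_aset ht.1
    exact ⟨s, hs⟩
  have hos0 : os α ≠ 0 := os_ne_zero y
  have hgf' : ∀ g f, 1 - gf C = os α * ((1 - gf C) * gf (nset_finite hB g f).toFinset +
      gf (aset_finite hB g).toFinset * gf (bset_finite hB f).toFinset) := by
    intro g f
    refine hgf α C _ _ _ hC ?_
    simpa only [Set.Finite.coe_toFinset] using partP hB g f
  obtain ⟨Q, hQ⟩ : ∃ Q, Q = (1 - gf C) * gf (nset_finite hB [] []).toFinset +
      gf (aset_finite hB []).toFinset * gf (bset_finite hB []).toFinset := ⟨_, rfl⟩
  have hcQ : 1 - gf C = os α * Q := by rw [hQ]; exact hgf' [] []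
  have hGF : ∀ g f, gf (aset_finite hB g).toFinset * gf (bset_finite hB f).toFinset =
      Q * (1 - os α * gf (nset_finite hB g f).toFinset) := by
    intro g f
    have h1 := hgf' g f
    rw [hcQ] at h1
    have h2 := mul_left_cancel₀ hos0 h1
    linear_combination -h2
  have hQ1 : constantCoeff Q = 1 := by
    have h1 := congrArg constantCoeff hcQ
    rw [map_sub, map_one, const_gf (fun h => hC.1 (by exact_mod_cast h)), map_mul, const_os,
      one_mul, sub_zero] at h1
    exact h1.symm
  have hQ0 : Q ≠ 0 := by
    intro h
    rw [h, map_zero] at hQ1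
    exact zero_ne_one hQ1
  obtain ⟨F0, G0, hFG0, hF0, hG0⟩ := H86.OF.split_dvd Q hQ0
    (fun g => gf (aset_finite hB g).toFinset) (fun f => gf (bset_finite hB f).toFinset)
    (fun g f => by
      rw [hGF g f]
      exact dvd_mul_right _ _)
  obtain ⟨F, G, a, b, hFG, -, -, hFa, hGb, hnn, hF1, hG1, hpos⟩ := sign_poly h2
    (fun g => (aset_finite hB g).toFinset) (fun f => (bset_finite hB f).toFinset)
    (fun g => by
      obtain ⟨v, hv⟩ := aset_nonempty hB g
      exact ⟨v, (Set.Finite.mem_toFinset _).2 hv⟩)
    (fun f => by
      obtain ⟨v, hv⟩ := bset_nonempty hB f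
      exact ⟨v, (Set.Finite.mem_toFinset _).2 hv⟩)
    F0 G0 (fun g f => gf (nset_finite hB g f).toFinset) hF0 hG0 (by rw [← hFG0]; exact hQ1)
    (fun g f => by rw [hGF g f, hFG0])
  have hQFG : Q = F * G := by rw [hFG, hFG0]
  have hFne : F ≠ 0 := by
    intro h
    rw [h, map_zero] at hF1
    exact zero_ne_one hF1
  have hGne : G ≠ 0 := by
    intro h
    rw [h, map_zero] at hG1
    exact zero_ne_one hG1
  have hs : ∑ x : α, (X x : MvPolynomial α ℤ) = 1 - os α := by
    unfold os
    ring
  obtain ⟨e, he⟩ : ∃ e : List α → ℤ, e = fun g => if RC (C : Set (List α)) S g then 1 else 0 :=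
    ⟨_, rfl⟩
  obtain ⟨e', he'⟩ : ∃ e' : List α → ℤ, e' = fun f => if LC (C : Set (List α)) P f then 1 else 0 :=
    ⟨_, rfl⟩
  have hpk : Pk F G a b e e' (fun g f => (nset_finite hB g f).toFinset) := by
    rw [he, he']
    refine ⟨h2, ?_, ?_, ?_, ?_, hnn, ?_, ?_, ?_, hF1, hG1, fun t ht => (hpos t ht).1,
      fun t ht => (hpos t ht).2.1, fun t ht => (hpos t ht).2.2.1,
      fun t ht => (hpos t ht).2.2.2, ?_, ?_, ?_, ?_⟩
    · intro g
      split_ifs <;> simp
    · intro f
      split_ifs <;> simp
    · intro g
      have h1 := H86.SW.recA_gf hB hPne g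
      simp only [hFa] at h1
      have h3 : ∑ x : α, X x * (F * (1 - os α * a (g ++ [x]))) =
          F * ((1 - os α) - os α * ∑ x : α, X x * a (g ++ [x])) := by
        rw [← hs, Finset.mul_sum, ← Finset.sum_sub_distrib, Finset.mul_sum]
        refine Finset.sum_congr rfl fun x _ => ?_
        ring
      have h4 : gf C - 1 = -(os α * (F * G)) := by
        rw [← hQFG, ← hcQ]
        ring
      have h5 : (MvPolynomial.C (if RC (C : Set (List α)) S g then (1 : ℤ) else 0) : MvPolynomial α ℤ) =
          if RC (C : Set (List α)) S g then 1 else 0 := by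
        split_ifs <;> simp
      rw [h5]
      rw [h3, h4] at h1
      refine mul_left_cancel₀ (mul_ne_zero hFne hos0) ?_
      linear_combination -h1
    · intro f
      have h1 := H86.SW.recB_gf hB hSne f
      simp only [hGb] at h1
      have h3 : ∑ x : α, X x * (G * (1 - os α * b (x :: f))) =
          G * ((1 - os α) - os α * ∑ x : α, X x * b (x :: f)) := by
        rw [← hs, Finset.mul_sum, ← Finset.sum_sub_distrib, Finset.mul_sum]
        refine Finset.sum_congr rfl fun x _ => ?_
        ring
      have h4 : gf C - 1 = -(os α * (F * G)) := by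
        rw [← hQFG, ← hcQ]
        ring
      have h5 : (MvPolynomial.C (if LC (C : Set (List α)) P f then (1 : ℤ) else 0) : MvPolynomial α ℤ) =
          if LC (C : Set (List α)) P f then 1 else 0 := by
        split_ifs <;> simp
      rw [h5]
      rw [h3, h4] at h1
      refine mul_left_cancel₀ (mul_ne_zero hGne hos0) ?_
      linear_combination -h1
    · intro g f
      obtain ⟨w, hw⟩ := hne g f
      exact ⟨w, (Set.Finite.mem_toFinset _).2 hw⟩
    · intro g f w hw hf
      have hw' : w ∈ Nset (C : Set (List α)) S P g f := (Set.Finite.mem_toFinset _).1 hw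
      have hf' : LC (C : Set (List α)) P f := by
        by_contra hcon
        simp [hcon] at hf
      rw [if_neg]
      intro hr
      exact ncut (u1 := w) (u2 := []) hC (by rwa [List.append_nil]) hr (by rwa [List.nil_append])
    · intro g f w hw hg
      have hw' : w ∈ Nset (C : Set (List α)) S P g f := (Set.Finite.mem_toFinset _).1 hw
      have hg' : RC (C : Set (List α)) S g := by
        by_contra hcon
        simp [hcon] at hg
      rw [if_neg]
      intro hr
      exact ncut (u1 := []) (u2 := w) hC (by rwa [List.nil_append]) (by rwa [List.append_nil]) hr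
    · exact fin_range y (fun g => (aset_finite hB g).toFinset)
        (fun g w hw => aset_le hB ((Set.Finite.mem_toFinset _).1 hw)) hFne hFa
    · exact fin_range y (fun f => (bset_finite hB f).toFinset)
        (fun f w hw => bset_le hB ((Set.Finite.mem_toFinset _).1 hw)) hGne hGb
    · intro g
      rw [← hFa g]
      exact NN.gf _
    · intro f
      rw [← hGb f]
      exact NN.gf _

  have hRC : ∀ {g}, e g = 1 → RC (C : Set (List α)) S g := by
    intro g hg
    by_contra hcon
    rw [he] at hg
    simp [hcon] at hg
  have hLC : ∀ {f}, e' f = 1 → LC (C : Set (List α)) P f := by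
    intro f hf
    by_contra hcon
    rw [he'] at hf
    simp [hcon] at hf
  have hRC' : ∀ {g}, RC (C : Set (List α)) S g → e g = 1 := by
    intro g hg
    rw [he]
    simp [hg]
  have hLC' : ∀ {f}, LC (C : Set (List α)) P f → e' f = 1 := by
    intro f hf
    rw [he']
    simp [hf]
  refine ⟨F, G, a, b, e, e', fun g f => (nset_finite hB g f).toFinset, ⟨hpk, ?_, ?_⟩,
    by rw [hcQ, hQFG], ?_, ?_⟩
  · -- no cut
    intro g f w hw
    rw [Set.Finite.mem_toFinset]
    by_contra hcon
    have h1 : (Facts (Aset (C : Set (List α)) S g) (FC.Star (C : Set (List α)))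
        (Bset (C : Set (List α)) P f) w).Nonempty := by
      rw [Set.nonempty_iff_ne_empty]
      exact hcon
    obtain ⟨⟨s, c, p⟩, h3, h4, h5, h6⟩ := h1
    simp only at h3 h4 h5 h6
    have h7 := hw s (c ++ p) h6.symm (hRC' (rc_of_aset h3))
    have h8 := hLC' (lc_star h4 (lc_of_bset h5))
    rw [List.append_assoc] at h7
    rw [h7] at h8
    exact zero_ne_one h8
  · -- the linear part
    intro x
    have h1 := congrArg (coeff (Finsupp.single x 1)) hcQ
    rw [hQFG, coeff_mul_one, coeff_mul_one, coeff_os, const_os, map_mul, hF1, hG1, coeff_sub,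
      coeff_one, if_neg (by
        intro h
        have := DFunLike.congr_fun h x
        simp at this)] at h1
    have h3 := NN.gf C (Finsupp.single x 1)
    linarith
  · -- the first link
    rintro hF3 hG4 ⟨g, f, hg, hag, hf, hbf⟩
    refine hPr α (C : Set (List α)) S P N L hB h2 g f (hRC hg) (hLC hf) (hne g f) ?_ ?_ ?_
    · intro w hw
      have h1 : gf (nset_finite hB g f).toFinset = b f := by
        rw [hnn g f, hag]
        ring
      have h3 : w ∈ (nset_finite hB g f).toFinset := (Set.Finite.mem_toFinset _).2 hw
      have h4 : w.length ≤ 1 := length_le h3 (by rw [h1]; exact hbf)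
      have h5 : w ≠ [] := by
        rintro rfl
        have h6 : 0 < coeff (vec ([] : List α)) (b f) := by
          rw [← h1]
          exact coeff_gf_pos h3
        have h7 : coeff (vec ([] : List α)) (b f) = constantCoeff (b f) := by
          simp [vec, constantCoeff_eq]
        rw [h7, const_b hpk, hf, sub_self] at h6
        exact lt_irrefl _ h6
      have := List.length_pos_iff.2 h5
      omega
    · intro w hw
      have h3 : w ∈ (aset_finite hB g).toFinset := (Set.Finite.mem_toFinset _).2 hw
      refine length_le h3 ?_
      rw [hFa g, hag, mul_zero, sub_zero, mul_one]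
      exact hF3
    · intro w hw
      have h3 : w ∈ (bset_finite hB f).toFinset := (Set.Finite.mem_toFinset _).2 hw
      refine length_le h3 ?_
      rw [hGb f]
      exact deg_cof hG4 hbf
  · -- the mirror image
    rintro hG3 hF4 ⟨g, f, hf, hbf, hg, hag⟩
    have hrev := hPr α (List.reverse '' (C : Set (List α))) (List.reverse '' (P : Set (List α)))
      (List.reverse '' (S : Set (List α))) (List.reverse '' (N : Set (List α))) L hB.rev h2
      f.reverse g.reverse ((lc_iff f).1 (hLC hf)) ((rc_iff g).1 (hRC hg))
    have hmem : ∀ w, w ∈ Nset (List.reverse '' (C : Set (List α)))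
        (List.reverse '' (P : Set (List α))) (List.reverse '' (S : Set (List α)))
        f.reverse g.reverse → w.reverse ∈ Nset (C : Set (List α)) S P g f := by
      intro w hw
      show Facts _ _ _ _ = ∅
      rw [Set.eq_empty_iff_forall_notMem]
      intro t ht
      have h1 := (facts_iff_rev g f w.reverse t).1 ht
      rw [List.reverse_reverse] at h1
      have h3 : Facts (Aset (List.reverse '' (C : Set (List α)))
          (List.reverse '' (P : Set (List α))) f.reverse) (FC.Star (List.reverse '' (C : Set _)))
          (Bset (List.reverse '' (C : Set (List α))) (List.reverse '' (S : Set (List α)))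
            g.reverse) w = ∅ := hw
      rw [h3] at h1
      exact h1
    have hneR : (Nset (List.reverse '' (C : Set (List α)))
        (List.reverse '' (P : Set (List α))) (List.reverse '' (S : Set (List α)))
        f.reverse g.reverse).Nonempty := by
      obtain ⟨w, hw⟩ := hne g f
      refine ⟨w.reverse, ?_⟩
      show Facts _ _ _ _ = ∅
      rw [Set.eq_empty_iff_forall_notMem]
      rintro ⟨p, c, s⟩ ht
      have h1 := (facts_iff_rev g f w (s.reverse, c.reverse, p.reverse)).2 (by
        simpa only [List.reverse_reverse] using ht)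
      have h3 : Facts (Aset (C : Set (List α)) S g) (FC.Star (C : Set (List α)))
        (Bset (C : Set (List α)) P f) w = ∅ := hw
      rw [h3] at h1
      exact h1
    obtain ⟨S', P', hS', hP', hT'⟩ := hrev hneR (by
      intro w hw
      have hw' := hmem w hw
      have h1 : gf (nset_finite hB g f).toFinset = a g := by
        rw [hnn g f, hbf]
        ring
      have h3 : w.reverse ∈ (nset_finite hB g f).toFinset := (Set.Finite.mem_toFinset _).2 hw'
      have h4 : w.reverse.length ≤ 1 := length_le h3 (by rw [h1]; exact hag)
      have h5 : w.reverse ≠ [] := by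
        intro h0
        rw [h0] at h3
        have h6 : 0 < coeff (vec ([] : List α)) (a g) := by
          rw [← h1]
          exact coeff_gf_pos h3
        have h7 : coeff (vec ([] : List α)) (a g) = constantCoeff (a g) := by
          simp [vec, constantCoeff_eq]
        rw [h7, const_a hpk, hg, sub_self] at h6
        exact lt_irrefl _ h6
      have := List.length_pos_iff.2 h5
      rw [List.length_reverse] at this h4
      omega) (by
      intro w hw
      have h0 : w.reverse ∈ Bset (C : Set (List α)) P f := by
        rw [bset_iff, List.reverse_reverse]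
        exact hw
      have h3 : w.reverse ∈ (bset_finite hB f).toFinset := (Set.Finite.mem_toFinset _).2 h0
      rw [← List.length_reverse]
      refine length_le h3 ?_
      rw [hGb f, hbf, mul_zero, sub_zero, mul_one]
      exact hG3) (by
      intro w hw
      have h0 : w.reverse ∈ Aset (C : Set (List α)) S g := by
        rw [aset_iff, List.reverse_reverse]
        exact hw
      have h3 : w.reverse ∈ (aset_finite hB g).toFinset := (Set.Finite.mem_toFinset _).2 h0
      rw [← List.length_reverse]
      refine length_le h3 ?_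
      rw [hFa g]
      exact deg_cof hF4 hag)
    exact ⟨_, _, hP'.image _, hS'.image _, CX.tiles_rev0 hT'⟩

theorem sLink (hPr : SPrime) : SLink := sLink_of hPr Pool.Agent.H35.FC.gfP

end Pool.Agent.H72.S8
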